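import Pool.Agent.H86R3.Wnc3
import Pool.Agent.H86R3.Efun

set_option autoImplicit false

open Filter Topology Set
open scoped ENNReal NNReal unitInterval
open Pool.Agent.H86R3 Pool.Agent.H86R3.Wnc

namespace Pool.Agent.Results.MP_ca490d_an.NotEquivalent

universe u

/-- On every compact Hausdorff space `K` that maps continuously onto the unit interval (for
instance the unit interval itself) no multiple of `wk` or of `wck` dominates the De Blasi measure on
the bounded subsets of `C(K)`. -/
theorem result (K : Type u) [TopologicalSpace K] [CompactSpace K] [T2Space K]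
    (ψ : C(K, unitInterval)) (hψ : Function.Surjective ψ) (c : ℝ≥0) :
    ∃ A : Set C(K, ℂ), A.Nonempty ∧ Bornology.IsBounded A ∧
      (c : ℝ≥0∞) * wk A < deBlasi A ∧ (c : ℝ≥0∞) * wck A < deBlasi A := by
  obtain ⟨n, hn⟩ := exists_nat_gt (c : ℝ)
  obtain ⟨e, he, he0, hpts⟩ := exists_e' ψ hψ (n + 1)
  have hbdd : Bornology.IsBounded (AA e (n + 1) 0 []) := by
    rw [isBounded_iff_forall_norm_le]
    refine ⟨(n + 1 : ℕ), ?_⟩
    rintro _ ⟨s, hs, rfl⟩
    rw [ContinuousMap.norm_le _ (by positivity)]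
    intro t
    have h1 := FF_le he s t
    have h2 := EE_length (n + 1) 0 [] s hs
    rw [List.length_nil, zero_add] at h2
    rw [h2] at h1
    change ‖toC (FF e s) t‖ ≤ _
    rw [toC_apply, Complex.norm_real, Real.norm_eq_abs, abs_of_nonneg (NNReal.coe_nonneg _)]
    exact_mod_cast h1
  have hne : (AA e (n + 1) 0 []).Nonempty := by
    have : ∀ (k a : ℕ) (s : List ℕ), (EE k a s).Nonempty := by
      intro k
      induction k with
      | zero => intro a s; exact ⟨s, rfl⟩
      | succ k ih =>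
        intro a s
        obtain ⟨s', hs'⟩ := ih (a + 1) ((a + 1) :: s)
        exact ⟨s', a + 1, Nat.lt_succ_self a, hs'⟩
    exact (this (n + 1) 0 []).image _
  have hwk : wk (AA e (n + 1) 0 []) ≤ ENNReal.ofReal (1 / 2) :=
    (excess_le_iff _ _ _).mpr (wk_small he he0 (n + 1) 0 [])
  have hlow : ENNReal.ofReal (n / 2) ≤ deBlasi (AA e (n + 1) 0 []) := lower he0 n hpts
  have hmid : (c : ℝ≥0∞) * ENNReal.ofReal (1 / 2) < ENNReal.ofReal (n / 2) := by
    rw [← ENNReal.ofReal_coe_nnreal, ← ENNReal.ofReal_mul (NNReal.coe_nonneg c)]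
    rw [ENNReal.ofReal_lt_ofReal_iff_of_nonneg (by positivity)]
    linarith
  have h1 : (c : ℝ≥0∞) * wk (AA e (n + 1) 0 []) < deBlasi (AA e (n + 1) 0 []) :=
    (mul_le_mul_right hwk _).trans_lt (hmid.trans_le hlow)
  refine ⟨AA e (n + 1) 0 [], hne, hbdd, h1, ?_⟩
  exact (mul_le_mul_right (wck_le_wk hbdd) _).trans_lt h1

end Pool.Agent.Results.MP_ca490d_an.NotEquivalent
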